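import Pool.Agent.Q97.Weak

set_option autoImplicit false

/-!
# Every ccs Delta-point is a super Delta-point
-/

namespace Pool.Agent.Results.MP_c89e4d_an.CcsDeltaIsSuperDelta

variable (𝕜 : Type*) [RCLike 𝕜] {X : Type*} [NormedAddCommGroup X] [NormedSpace 𝕜 X]

/-- The slice `{z ∈ B_X : Re f(z) > 1 - α}` of the closed unit ball; it is used for functionals
`f` of norm one and `α > 0`. -/
def Slice (f : X →L[𝕜] 𝕜) (α : ℝ) : Set X :=
  {z | ‖z‖ ≤ 1 ∧ 1 - α < RCLike.re (f z)}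

/-- `C` is a convex combination of slices of the closed unit ball of `X`. -/
def IsCcs (C : Set X) : Prop :=
  ∃ (n : ℕ) (lam : Fin n → ℝ) (f : Fin n → (X →L[𝕜] 𝕜)) (α : Fin n → ℝ),
    (∀ i, 0 < lam i) ∧ ∑ i, lam i = 1 ∧ (∀ i, ‖f i‖ = 1) ∧ (∀ i, 0 < α i) ∧
      C = {z | ∃ u : Fin n → X, (∀ i, u i ∈ Slice 𝕜 (f i) (α i)) ∧
        z = ∑ i, ((lam i : ℝ) : 𝕜) • u i}

/-- The point `x` is a ccs Delta-point: `‖x‖ = 1` and, for every convex combination of slices `C`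
of the unit ball that contains `x`, the supremum of `‖x - y‖` over `y ∈ C` is `2`. -/
def IsCcsDeltaPoint (x : X) : Prop :=
  ‖x‖ = 1 ∧ ∀ C : Set X, IsCcs 𝕜 C → x ∈ C → IsLUB ((fun y => ‖x - y‖) '' C) 2

/-- `W` is a relatively weakly open subset of the closed unit ball of `X`. -/
def RelWeaklyOpen (W : Set X) : Prop :=
  ∃ U : Set (WeakSpace 𝕜 X), IsOpen U ∧ W = {y : X | ‖y‖ ≤ 1 ∧ toWeakSpace 𝕜 X y ∈ U}

/-- The point `x` is a super Delta-point: `‖x‖ = 1` and, for every relatively weakly open subset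
`W` of the unit ball that contains `x`, the supremum of `‖x - y‖` over `y ∈ W` is `2`. -/
def IsSuperDeltaPoint (x : X) : Prop :=
  ‖x‖ = 1 ∧ ∀ W : Set X, RelWeaklyOpen 𝕜 W → x ∈ W → IsLUB ((fun y => ‖x - y‖) '' W) 2

/-- **Theorem.** In every real or complex Banach space, every ccs Delta-point is a super
Delta-point. -/
theorem result (𝕜 : Type*) [RCLike 𝕜] (X : Type*) [NormedAddCommGroup X] [NormedSpace 𝕜 X]
    [CompleteSpace X] (x : X) (h : IsCcsDeltaPoint 𝕜 x) : IsSuperDeltaPoint 𝕜 x := by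
  classical
  refine ⟨h.1, ?_⟩
  rintro W ⟨U, hU, rfl⟩ hxW
  constructor
  · rintro _ ⟨z, hz, rfl⟩
    calc ‖x - z‖ ≤ ‖x‖ + ‖z‖ := norm_sub_le _ _
      _ ≤ 2 := by linarith [hz.1, h.1]
  intro b hb
  by_contra hb2
  push Not at hb2
  obtain ⟨I, δ, hδ, hI⟩ := Q97.exists_finset_of_isOpen_weak hU hxW.2
  -- a norm one functional on `X`
  have hne0 : ‖x‖ ≠ 0 := by rw [h.1]; norm_num
  have hne : ∃ f : X →L[𝕜] 𝕜, ‖f‖ = 1 := by
    obtain ⟨g0, hg0, -⟩ := exists_dual_vector 𝕜 x hne0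
    exact ⟨g0, hg0⟩
  -- the finite dimensional picture
  set Ψ : X →L[𝕜] (I → 𝕜) := ContinuousLinearMap.pi (fun ψ => ψ.1) with hΨ
  have hΨI : ∀ y : X, ‖Ψ (y - x)‖ < δ → toWeakSpace 𝕜 X y ∈ U := by
    intro y hy
    apply hI
    intro ψ hψ
    rw [pi_norm_lt_iff hδ] at hy
    exact hy ⟨ψ, hψ⟩
  set M : ℝ := ‖Ψ‖ * 2 + 1 with hM
  have hMpos : 0 < M := by have := norm_nonneg Ψ; rw [hM]; linarith
  have hΨM : ∀ y : X, ‖y‖ ≤ 1 → ‖Ψ (y - x)‖ ≤ M := by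
    intro y hy
    have h1 : ‖y - x‖ ≤ 2 := by
      calc ‖y - x‖ ≤ ‖y‖ + ‖x‖ := norm_sub_le _ _
        _ ≤ 2 := by linarith [h.1]
    calc ‖Ψ (y - x)‖ ≤ ‖Ψ‖ * ‖y - x‖ := Ψ.le_opNorm _
      _ ≤ ‖Ψ‖ * 2 := mul_le_mul_of_nonneg_left h1 (norm_nonneg _)
      _ ≤ M := by rw [hM]; linarith
  -- a finite net of the dual sphere
  have : ProperSpace ((I → 𝕜) →L[𝕜] 𝕜) := FiniteDimensional.proper_rclike 𝕜 _
  have hcomp : IsCompact (Metric.sphere (0 : (I → 𝕜) →L[𝕜] 𝕜) 1) := isCompact_sphere _ _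
  have hr : 0 < δ / (2 * M) := by positivity
  obtain ⟨t, hts, htfin, hcov⟩ := hcomp.finite_cover_balls hr
  set N : Finset ((I → 𝕜) →L[𝕜] 𝕜) := insert 0 htfin.toFinset with hN
  have hNcard : 0 < N.card := Finset.card_pos.mpr ⟨0, Finset.mem_insert_self _ _⟩
  set n : ℕ := N.card with hn
  set e := N.equivFin with he
  have hnpos : (0 : ℝ) < n := by exact_mod_cast hNcard
  -- the slices
  have hsl : ∀ i : Fin n, ∃ (f : X →L[𝕜] 𝕜) (α : ℝ), ‖f‖ = 1 ∧ 0 < α ∧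
      ∀ y : X, ‖y‖ ≤ 1 → (1 - α < RCLike.re (f y) ↔
        RCLike.re ((e.symm i).1 (Ψ (y - x))) < δ / 2) := by
    intro i
    set c : (I → 𝕜) →L[𝕜] 𝕜 := (e.symm i).1 with hc
    obtain ⟨f, α, hf, hα, hiff⟩ := Q97.exists_slice_of_halfspace hne (-(c.comp Ψ))
      (-(δ / 2) - RCLike.re (c (Ψ x))) x h.1.le (by simp; linarith)
    refine ⟨f, α, hf, hα, ?_⟩
    intro y hy
    rw [hiff y hy]
    simp only [map_sub, _root_.neg_apply, ContinuousLinearMap.comp_apply, map_neg]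
    constructor <;> intro h' <;> linarith
  choose f α hf hα hiff using hsl
  set C : Set X := {z | ∃ u : Fin n → X, (∀ i, u i ∈ Slice 𝕜 (f i) (α i)) ∧
        z = ∑ i, (((1 / n : ℝ)) : 𝕜) • u i} with hC
  have hsum1 : ∑ _i : Fin n, (1 / n : ℝ) = 1 := by
    rw [Finset.sum_const, Finset.card_univ, Fintype.card_fin, nsmul_eq_mul]
    field_simp
  have hCccs : IsCcs 𝕜 C :=
    ⟨n, fun _ => 1 / n, f, α, fun i => by positivity, hsum1, hf, hα, rfl⟩
  have hxC : x ∈ C := by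
    refine ⟨fun _ => x, fun i => ⟨h.1.le, ?_⟩, ?_⟩
    · rw [hiff i x h.1.le]
      simp
      exact hδ
    · rw [← Finset.sum_smul, ← RCLike.ofReal_sum, hsum1]
      simp
  have hlub := h.2 C hCccs hxC
  -- choose a far away point of `C`
  set ε : ℝ := (2 - b) / (n + 1) with hε
  have hεpos : 0 < ε := by
    apply div_pos <;> linarith
  have hεeq : (n + 1) * ε = 2 - b := by
    rw [hε]; field_simp
  obtain ⟨_, ⟨z, ⟨u, hu, rfl⟩, rfl⟩, hz, -⟩ := hlub.exists_between (show 2 - ε < 2 by linarith)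
  obtain ⟨g, hg1, hgz⟩ := exists_dual_vector'' 𝕜 (x - ∑ i, (((1 / n : ℝ)) : 𝕜) • u i)
  have hgle : ∀ y : X, ‖y‖ ≤ 1 → |RCLike.re (g y)| ≤ 1 := by
    intro y hy
    calc |RCLike.re (g y)| ≤ ‖g y‖ := RCLike.abs_re_le_norm _
      _ ≤ ‖g‖ * ‖y‖ := g.le_opNorm y
      _ ≤ 1 := by have := norm_nonneg y; nlinarith [norm_nonneg g]
  have hgre : RCLike.re (g x) - ∑ i, (1 / n : ℝ) * RCLike.re (g (u i)) > 2 - ε := by
    have h1 := congrArg RCLike.re hgz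
    rw [map_sub, map_sub, RCLike.ofReal_re, map_sum, map_sum] at h1
    have h2 : ∀ i, RCLike.re (g ((((1 / n : ℝ)) : 𝕜) • u i)) =
        (1 / n : ℝ) * RCLike.re (g (u i)) := by
      intro i
      rw [map_smul, smul_eq_mul, RCLike.re_ofReal_mul]
    rw [Finset.sum_congr rfl (fun i _ => h2 i)] at h1
    rw [h1]
    exact hz
  have hgx1 : RCLike.re (g x) ≤ 1 := (abs_le.mp (hgle x h.1.le)).2
  have hgu : ∀ i, -1 ≤ RCLike.re (g (u i)) := fun i => (abs_le.mp (hgle _ (hu i).1)).1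
  have hsumu : ∑ i, (1 / n : ℝ) * RCLike.re (g (u i)) < -1 + ε := by linarith
  have hgxlow : RCLike.re (g x) > 1 - ε := by
    have : -1 ≤ ∑ i, (1 / n : ℝ) * RCLike.re (g (u i)) := by
      calc (-1 : ℝ) = ∑ _i : Fin n, (1 / n : ℝ) * (-1) := by
            rw [← Finset.sum_mul, hsum1]; ring
        _ ≤ _ := by
            apply Finset.sum_le_sum
            intro i _
            exact mul_le_mul_of_nonneg_left (hgu i) (by positivity)
    linarith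
  have hguup : ∀ i, RCLike.re (g (u i)) ≤ -1 + n * ε := by
    intro i
    have h1 : ∑ j, (RCLike.re (g (u j)) + 1) = n * (∑ j, (1 / n : ℝ) * RCLike.re (g (u j)) + 1) := by
      rw [Finset.sum_add_distrib, ← Finset.mul_sum, Finset.sum_const, Finset.card_univ,
        Fintype.card_fin, nsmul_eq_mul]
      field_simp
    have h2 : RCLike.re (g (u i)) + 1 ≤ ∑ j, (RCLike.re (g (u j)) + 1) := by
      apply Finset.single_le_sum (f := fun j => RCLike.re (g (u j)) + 1)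
      · intro j _
        have := hgu j
        change 0 ≤ RCLike.re (g (u j)) + 1
        linarith
      · exact Finset.mem_univ i
    nlinarith
  -- the convex set of points on which `g` is almost minimal misses `W`
  set T : Set (I → 𝕜) := {v | ∃ y : X, ‖y‖ ≤ 1 ∧ RCLike.re (g y) ≤ -1 + n * ε ∧
    v = Ψ (y - x)} with hT
  have hTconv : Convex ℝ T := by
    rintro v₁ ⟨y₁, hy₁, hg₁, rfl⟩ v₂ ⟨y₂, hy₂, hg₂, rfl⟩ a c ha hc hac
    refine ⟨((a : ℝ) : 𝕜) • y₁ + ((c : ℝ) : 𝕜) • y₂, ?_, ?_, ?_⟩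
    · calc ‖((a : ℝ) : 𝕜) • y₁ + ((c : ℝ) : 𝕜) • y₂‖
          ≤ ‖((a : ℝ) : 𝕜) • y₁‖ + ‖((c : ℝ) : 𝕜) • y₂‖ := norm_add_le _ _
        _ = a * ‖y₁‖ + c * ‖y₂‖ := by
            rw [norm_smul, norm_smul, RCLike.norm_ofReal, RCLike.norm_ofReal, abs_of_nonneg ha,
              abs_of_nonneg hc]
        _ ≤ 1 := by nlinarith
    · have e1 : g (((a : ℝ) : 𝕜) • y₁ + ((c : ℝ) : 𝕜) • y₂) =
          ((a : ℝ) : 𝕜) * g y₁ + ((c : ℝ) : 𝕜) * g y₂ := by
        rw [g.map_add, g.map_smul, g.map_smul, smul_eq_mul, smul_eq_mul]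
      have e2 : RCLike.re (g (((a : ℝ) : 𝕜) • y₁ + ((c : ℝ) : 𝕜) • y₂)) =
          a * RCLike.re (g y₁) + c * RCLike.re (g y₂) := by
        rw [e1, AddMonoidHom.map_add, RCLike.re_ofReal_mul, RCLike.re_ofReal_mul]
      have e3 : a * RCLike.re (g y₁) ≤ a * (-1 + n * ε) := mul_le_mul_of_nonneg_left hg₁ ha
      have e4 : c * RCLike.re (g y₂) ≤ c * (-1 + n * ε) := mul_le_mul_of_nonneg_left hg₂ hc
      have e5 : a * (-1 + n * ε) + c * (-1 + n * ε) = -1 + n * ε := by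
        rw [← add_mul, hac, one_mul]
      rw [e2]
      linarith
    · have hsplit : ((a : ℝ) : 𝕜) • y₁ + ((c : ℝ) : 𝕜) • y₂ - x =
          ((a : ℝ) : 𝕜) • (y₁ - x) + ((c : ℝ) : 𝕜) • (y₂ - x) := by
        have hx1 : x = ((a : ℝ) : 𝕜) • x + ((c : ℝ) : 𝕜) • x := by
          rw [← add_smul, ← RCLike.ofReal_add, hac]; simp
        rw [smul_sub, smul_sub]
        nth_rewrite 1 [hx1]
        abel
      rw [hsplit, Ψ.map_add, Ψ.map_smul, Ψ.map_smul]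
      ext k
      simp [RCLike.real_smul_eq_coe_mul]
  have hdisj : Disjoint (Metric.ball (0 : I → 𝕜) δ) T := by
    rw [Set.disjoint_left]
    rintro v hv ⟨y, hy, hgy, rfl⟩
    rw [mem_ball_zero_iff] at hv
    have hyW : y ∈ {y : X | ‖y‖ ≤ 1 ∧ toWeakSpace 𝕜 X y ∈ U} := ⟨hy, hΨI y hv⟩
    have h1 : ‖x - y‖ ≤ b := hb ⟨y, hyW, rfl⟩
    have h2 : RCLike.re (g (x - y)) ≤ ‖x - y‖ := by
      calc RCLike.re (g (x - y)) ≤ ‖g (x - y)‖ := RCLike.re_le_norm _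
        _ ≤ ‖g‖ * ‖x - y‖ := g.le_opNorm _
        _ ≤ ‖x - y‖ := by have := norm_nonneg (x - y); nlinarith
    rw [map_sub, map_sub] at h2
    nlinarith
  obtain ⟨F, s, hF1, hF2⟩ := RCLike.geometric_hahn_banach_open (𝕜 := 𝕜)
    (convex_ball (0 : I → 𝕜) δ) Metric.isOpen_ball hTconv hdisj
  have huT : ∀ i, Ψ (u i - x) ∈ T := fun i => ⟨u i, (hu i).1, hguup i, rfl⟩
  have hs0 : 0 < s := by
    have := hF1 0 (Metric.mem_ball_self hδ)
    simpa using this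
  have hFne : F ≠ 0 := by
    intro h0
    have := hF2 _ (huT ⟨0, hNcard⟩)
    rw [h0] at this
    simp at this
    linarith
  have hFpos : 0 < ‖F‖ := norm_pos_iff.mpr hFne
  have hFs : ‖F‖ * δ ≤ s := by
    by_contra hlt
    push Not at hlt
    have h1 : s / δ < ‖F‖ := by rw [div_lt_iff₀ hδ]; exact hlt
    obtain ⟨v, hv1, hv2⟩ := F.exists_lt_apply_of_lt_opNorm h1
    have hFv : F v ≠ 0 := by
      intro h0
      rw [h0, norm_zero] at hv2
      have : 0 < s / δ := by positivity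
      linarith
    have hFvn : 0 < ‖F v‖ := norm_pos_iff.mpr hFv
    set θ : 𝕜 := (starRingEnd 𝕜) (F v) / ((‖F v‖ : ℝ) : 𝕜) with hθ
    have hθn : ‖θ‖ = 1 := by
      rw [hθ, norm_div, RCLike.norm_conj, RCLike.norm_ofReal, abs_norm,
        div_self hFvn.ne']
    have hw : (((δ : ℝ) : 𝕜) * θ) • v ∈ Metric.ball (0 : I → 𝕜) δ := by
      rw [mem_ball_zero_iff, norm_smul, norm_mul, hθn, RCLike.norm_ofReal, abs_of_pos hδ, mul_one]
      nlinarith
    have h2 := hF1 _ hw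
    have h3 : F ((((δ : ℝ) : 𝕜) * θ) • v) = ((δ * ‖F v‖ : ℝ) : 𝕜) := by
      rw [map_smul, smul_eq_mul, hθ, RCLike.ofReal_mul]
      have h4 : (starRingEnd 𝕜) (F v) * F v = ((‖F v‖ : ℝ) : 𝕜) * ((‖F v‖ : ℝ) : 𝕜) := by
        rw [RCLike.conj_mul]; ring
      have h5 : ((‖F v‖ : ℝ) : 𝕜) ≠ 0 := by
        rw [Ne, RCLike.ofReal_eq_zero]; exact hFvn.ne'
      field_simp
      rw [mul_assoc, h4]
      ring
    rw [h3, RCLike.ofReal_re] at h2
    rw [div_lt_iff₀ hδ] at hv2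
    linarith
  set c : (I → 𝕜) →L[𝕜] 𝕜 := ((‖F‖⁻¹ : ℝ) : 𝕜) • F with hc
  have hcn : ‖c‖ = 1 := by
    rw [hc, norm_smul, RCLike.norm_ofReal, abs_of_pos (inv_pos.mpr hFpos),
      inv_mul_cancel₀ hFpos.ne']
  have hcT : ∀ v ∈ T, δ ≤ RCLike.re (c v) := by
    intro v hv
    rw [hc, _root_.smul_apply, smul_eq_mul, RCLike.re_ofReal_mul]
    have h1 := hF2 v hv
    rw [inv_mul_eq_div, le_div_iff₀ hFpos]
    linarith
  have hcS : c ∈ Metric.sphere (0 : (I → 𝕜) →L[𝕜] 𝕜) 1 := by simpa using hcn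
  have := hcov hcS
  simp only [Set.mem_iUnion, Metric.mem_ball, exists_prop] at this
  obtain ⟨c', hc't, hcc'⟩ := this
  have hc'N : c' ∈ N := by
    rw [hN]
    exact Finset.mem_insert_of_mem (htfin.mem_toFinset.mpr hc't)
  set i : Fin n := e ⟨c', hc'N⟩ with hi
  have hei : (e.symm i).1 = c' := by rw [hi]; simp
  have h1 : RCLike.re (c' (Ψ (u i - x))) < δ / 2 := by
    have := (hiff i (u i) (hu i).1).1 (hu i).2
    rwa [hei] at this
  have h2 := hcT _ (huT i)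
  have h3 : RCLike.re (c (Ψ (u i - x))) - RCLike.re (c' (Ψ (u i - x))) ≤ δ / 2 := by
    rw [← map_sub, ← _root_.sub_apply]
    calc RCLike.re ((c - c') (Ψ (u i - x))) ≤ ‖(c - c') (Ψ (u i - x))‖ := RCLike.re_le_norm _
      _ ≤ ‖c - c'‖ * ‖Ψ (u i - x)‖ := (c - c').le_opNorm _
      _ ≤ (δ / (2 * M)) * M := by
          rw [dist_eq_norm] at hcc'
          exact mul_le_mul hcc'.le (hΨM _ (hu i).1) (norm_nonneg _) hr.le
      _ = δ / 2 := by field_simp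
  linarith

end Pool.Agent.Results.MP_c89e4d_an.CcsDeltaIsSuperDelta
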